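import Pool.Agent.Y755.FK.Stm

/-! Consequence of a power saving. -/

set_option autoImplicit false

open Finset MeasureTheory Filter

open scoped Classical

namespace Pool.Agent.Y26.FK

open Pool.Agent.Y755.FK

noncomputable section

/-! ### Taylor polynomials of `exp (-y)` -/

def rr (n : ℕ) (y : ℝ) : ℝ := Real.exp (-y) - ∑ j ∈ range n, (-y) ^ j / (j.factorial : ℝ)

theorem rr_deriv (n : ℕ) (y : ℝ) : HasDerivAt (rr (n + 1)) (-(rr n y)) y := by
  have h1 : HasDerivAt (fun y : ℝ => Real.exp (-y)) (-Real.exp (-y)) y := by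
    have := (hasDerivAt_neg y).exp
    simpa using this
  have h2 : HasDerivAt (fun y : ℝ => ∑ j ∈ range (n + 1), (-y) ^ j / (j.factorial : ℝ))
      (-∑ j ∈ range n, (-y) ^ j / (j.factorial : ℝ)) y := by
    have e : (fun y : ℝ => ∑ j ∈ range (n + 1), (-y) ^ j / (j.factorial : ℝ)) =
        fun y : ℝ => (∑ j ∈ range n, (-y) ^ (j + 1) / ((j + 1).factorial : ℝ)) + 1 := by
      funext y
      rw [sum_range_succ']
      simp
    rw [e, ← sum_neg_distrib]
    refine HasDerivAt.add_const 1 (HasDerivAt.fun_sum fun j _ => ?_)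
    have h3 : HasDerivAt (fun y : ℝ => (-y) ^ (j + 1)) (((j + 1 : ℕ) : ℝ) * (-y) ^ j * (-1)) y := by
      have := HasDerivAt.fun_pow (hasDerivAt_neg y) (j + 1)
      refine this.congr_deriv ?_
      simp
    have h4 := h3.div_const ((j + 1).factorial : ℝ)
    refine h4.congr_deriv ?_
    rw [Nat.factorial_succ]
    have hj : ((j : ℝ) + 1) ≠ 0 := by positivity
    have hf : (j.factorial : ℝ) ≠ 0 := by positivity
    push_cast
    field_simp
  have h5 := h1.sub h2
  have e2 : -(rr n y) = -Real.exp (-y) - -∑ j ∈ range n, (-y) ^ j / (j.factorial : ℝ) := by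
    unfold rr; ring
  rw [e2]
  exact h5

theorem rr_zero (n : ℕ) : rr (n + 1) 0 = 0 := by
  unfold rr
  rw [sum_range_succ']
  simp

theorem rr_bound (n : ℕ) : ∀ y : ℝ, 0 ≤ y → 0 ≤ (-1) ^ n * rr n y ∧
    (-1) ^ n * rr n y ≤ y ^ n / (n.factorial : ℝ) := by
  induction n with
  | zero =>
    intro y hy
    unfold rr
    simp only [pow_zero, one_mul, range_zero, sum_empty, sub_zero, Nat.factorial_zero,
      Nat.cast_one, div_one]
    exact ⟨(Real.exp_pos _).le, Real.exp_le_one_iff.2 (by linarith)⟩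
  | succ n ih =>
    have hd : ∀ y : ℝ, HasDerivAt (fun y => (-1) ^ (n + 1) * rr (n + 1) y) ((-1) ^ n * rr n y) y := by
      intro y
      have := (rr_deriv n y).const_mul ((-1 : ℝ) ^ (n + 1))
      refine this.congr_deriv ?_
      rw [pow_succ]; ring
    have hd2 : ∀ y : ℝ, HasDerivAt (fun y : ℝ => y ^ (n + 1) / ((n + 1).factorial : ℝ))
        (y ^ n / (n.factorial : ℝ)) y := by
      intro y
      have := (hasDerivAt_pow (n + 1) y).div_const ((n + 1).factorial : ℝ)
      refine this.congr_deriv ?_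
      rw [Nat.factorial_succ, Nat.add_sub_cancel]
      have hj : ((n : ℝ) + 1) ≠ 0 := by positivity
      have hf : (n.factorial : ℝ) ≠ 0 := by positivity
      push_cast
      field_simp
    have m1 : MonotoneOn (fun y => (-1) ^ (n + 1) * rr (n + 1) y) (Set.Ici 0) := by
      refine monotoneOn_of_deriv_nonneg (convex_Ici 0)
        (fun y _ => (hd y).continuousAt.continuousWithinAt)
        (fun y _ => (hd y).differentiableAt.differentiableWithinAt) fun y hy => ?_
      rw [interior_Ici] at hy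
      rw [(hd y).deriv]
      exact (ih y hy.le).1
    have m2 : MonotoneOn (fun y => y ^ (n + 1) / ((n + 1).factorial : ℝ) -
        (-1) ^ (n + 1) * rr (n + 1) y) (Set.Ici 0) := by
      refine monotoneOn_of_deriv_nonneg (convex_Ici 0)
        (fun y _ => ((hd2 y).sub (hd y)).continuousAt.continuousWithinAt)
        (fun y _ => ((hd2 y).sub (hd y)).differentiableAt.differentiableWithinAt) fun y hy => ?_
      rw [interior_Ici] at hy
      have := ((hd2 y).sub (hd y)).deriv
      change 0 ≤ deriv ((fun y : ℝ => y ^ (n + 1) / ((n + 1).factorial : ℝ)) -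
        fun y => (-1) ^ (n + 1) * rr (n + 1) y) y
      rw [this]
      linarith [(ih y hy.le).2]
    intro y hy
    have k1 := m1 (Set.mem_Ici.2 le_rfl) (Set.mem_Ici.2 hy) hy
    have k2 := m2 (Set.mem_Ici.2 le_rfl) (Set.mem_Ici.2 hy) hy
    simp only [rr_zero, mul_zero, ne_eq, Nat.add_eq_zero_iff, one_ne_zero, and_false,
      not_false_eq_true, zero_pow, zero_div, sub_zero] at k1 k2
    exact ⟨k1, by linarith⟩

theorem rr_abs (n : ℕ) {y : ℝ} (hy : 0 ≤ y) : |rr n y| ≤ y ^ n / (n.factorial : ℝ) := by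
  obtain ⟨h1, h2⟩ := rr_bound n y hy
  have e : |rr n y| = |(-1) ^ n * rr n y| := by
    rw [abs_mul, abs_pow, abs_neg, abs_one, one_pow, one_mul]
  rw [e, abs_of_nonneg h1]
  exact h2

/-! ### Partial sums -/

def SA (a : ℕ → ℝ) (t : ℝ) : ℝ := ∑ k ∈ Icc 1 ⌊t⌋₊, a k

def EA (a : ℕ → ℝ) (c t : ℝ) : ℝ := SA a t - c * t

theorem SA_meas (a : ℕ → ℝ) : Measurable (SA a) := by
  have : Measurable (fun n : ℕ => ∑ k ∈ Icc 1 n, a k) := measurable_from_top
  exact this.comp Nat.measurable_floor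

theorem EA_meas (a : ℕ → ℝ) (c : ℝ) : Measurable (EA a c) :=
  (SA_meas a).sub (measurable_const.mul measurable_id)

/-- integrability of the majorants -/
theorem maj {d : ℝ} (hd : 0 < d) (m : ℕ) :
    IntegrableOn (fun t : ℝ => t ^ (-(1 + d)) * Real.log t ^ m) (Set.Ioi 1) := by
  set ε : ℝ := d / (2 * (m + 1)) with hε
  have hε0 : 0 < ε := by positivity
  have h1 : IntegrableOn (fun t : ℝ => t ^ (-(1 + d / 2)) * (1 / ε ^ m)) (Set.Ioi 1) :=
    (integrableOn_Ioi_rpow_of_lt (by linarith) one_pos).mul_const _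
  refine Integrable.mono' h1 ?_ ?_
  · exact ((measurable_id.pow_const _).mul (Real.measurable_log.pow_const m)).aestronglyMeasurable
  · refine (ae_restrict_iff' measurableSet_Ioi).2 (Eventually.of_forall fun t ht => ?_)
    have ht1 : (1 : ℝ) < t := ht
    have ht0 : 0 < t := by linarith
    have hl : 0 ≤ Real.log t := Real.log_nonneg ht1.le
    rw [Real.norm_eq_abs, abs_of_nonneg (by positivity)]
    have h2 : Real.log t ≤ t ^ ε / ε := Real.log_le_rpow_div ht0.le hε0
    have h3 : Real.log t ^ m ≤ (t ^ ε / ε) ^ m := pow_le_pow_left₀ hl h2 m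
    have h4 : (t ^ ε / ε) ^ m = t ^ (ε * m) / ε ^ m := by
      rw [div_pow, ← Real.rpow_natCast, ← Real.rpow_mul ht0.le]
    have h5 : t ^ (ε * m) ≤ t ^ (d / 2) := by
      apply Real.rpow_le_rpow_of_exponent_le ht1.le
      rw [hε, div_mul_eq_mul_div, div_le_div_iff₀ (by positivity) (by norm_num)]
      nlinarith [hd.le, Nat.cast_nonneg (α := ℝ) m]
    calc t ^ (-(1 + d)) * Real.log t ^ m ≤ t ^ (-(1 + d)) * (t ^ (d / 2) / ε ^ m) := by
          rw [h4] at h3
          have h6 : t ^ (ε * m) / ε ^ m ≤ t ^ (d / 2) / ε ^ m := by gcongr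
          exact mul_le_mul_of_nonneg_left (h3.trans h6) (by positivity)
      _ = t ^ (-(1 + d / 2)) * (1 / ε ^ m) := by
          rw [mul_div_assoc', ← Real.rpow_add ht0, mul_one_div]
          congr 2; ring

section

variable {a : ℕ → ℝ} {c K d : ℝ} (ha : ∀ k, 0 ≤ a k) (hd : 0 < d) (hd2 : d ≤ 1 / 2) (hK : 0 ≤ K)
  (hE : ∀ t : ℝ, 1 ≤ t → |EA a c t| ≤ K * t ^ (1 - d))

include hK hE in
theorem EA_le {t : ℝ} (ht : 1 < t) {y : ℝ} (hy : 0 ≤ y) :
    |EA a c t * t ^ (-(2 + y))| ≤ K * t ^ (-(1 + d)) := by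
  have ht0 : 0 < t := by linarith
  rw [abs_mul, abs_of_pos (Real.rpow_pos_of_pos ht0 _)]
  calc |EA a c t| * t ^ (-(2 + y)) ≤ K * t ^ (1 - d) * t ^ (-(2 : ℝ)) := by
        refine mul_le_mul (hE t ht.le) ?_ (by positivity) (by positivity)
        exact Real.rpow_le_rpow_of_exponent_le ht.le (by linarith)
    _ = K * t ^ (-(1 + d)) := by
        rw [mul_assoc, ← Real.rpow_add ht0]
        congr 2; ring

include hd hK hE in
theorem EA_int {y : ℝ} (hy : 0 ≤ y) (m : ℕ) :
    IntegrableOn (fun t : ℝ => EA a c t * t ^ (-(2 + y)) * Real.log t ^ m) (Set.Ioi 1) := by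
  refine Integrable.mono' ((maj hd m).const_mul K) ?_ ?_
  · exact (((EA_meas a c).mul (measurable_id.pow_const _)).mul
      (Real.measurable_log.pow_const m)).aestronglyMeasurable
  · refine (ae_restrict_iff' measurableSet_Ioi).2 (Eventually.of_forall fun t ht => ?_)
    have ht1 : (1 : ℝ) < t := ht
    have hl : 0 ≤ Real.log t := Real.log_nonneg ht1.le
    rw [Real.norm_eq_abs, abs_mul, abs_of_nonneg (pow_nonneg hl m)]
    have := mul_le_mul_of_nonneg_right (EA_le hK hE ht1 hy) (pow_nonneg hl m)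
    linarith

def IE (a : ℕ → ℝ) (c x : ℝ) : ℝ := ∫ t in Set.Ioi (1 : ℝ), EA a c t * t ^ (-(2 + x))

include hd hK hE in
theorem EE_IE : EE (IE a c) := by
  intro n
  refine ⟨∑ j ∈ range n, Polynomial.monomial j
    (∫ t in Set.Ioi (1 : ℝ), EA a c t * t ^ (-(2 + (0 : ℝ))) * Real.log t ^ j * ((-1) ^ j / j.factorial)),
    ∫ t in Set.Ioi (1 : ℝ), K * (t ^ (-(1 + d)) * Real.log t ^ n) * (1 / n.factorial),
    fun x hx0 hx1 => ?_⟩
  rw [Polynomial.eval_finsetSum]
  simp only [Polynomial.eval_monomial]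
  have h1 : IE a c x - ∑ j ∈ range n, (∫ t in Set.Ioi (1 : ℝ), EA a c t * t ^ (-(2 + (0 : ℝ))) *
      Real.log t ^ j * ((-1) ^ j / j.factorial)) * x ^ j =
      ∫ t in Set.Ioi (1 : ℝ), EA a c t * t ^ (-(2 + (0 : ℝ))) * rr n (x * Real.log t) := by
    unfold IE
    simp only [← integral_mul_const]
    rw [← integral_finsetSum, ← integral_sub]
    · refine setIntegral_congr_fun measurableSet_Ioi fun t ht => ?_
      have ht1 : (1 : ℝ) < t := ht
      have ht0 : 0 < t := by linarith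
      unfold rr
      have e1 : t ^ (-(2 + x)) = t ^ (-(2 + (0 : ℝ))) * Real.exp (-(x * Real.log t)) := by
        rw [Real.rpow_def_of_pos ht0, Real.rpow_def_of_pos ht0, ← Real.exp_add]
        congr 1; ring
      rw [e1, mul_sub, mul_sum]
      congr 1
      · ring
      · refine sum_congr rfl fun j _ => ?_
        rw [neg_pow (x * Real.log t), mul_pow]; ring
    · have := EA_int hd hK hE hx0.le 0
      simp only [pow_zero, mul_one] at this
      exact this
    · refine integrable_finsetSum _ fun j _ => ?_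
      exact ((EA_int hd hK hE le_rfl j).mul_const _).mul_const _
    · intro j _
      exact ((EA_int hd hK hE le_rfl j).mul_const _).mul_const _
  rw [h1, ← integral_mul_const, ← Real.norm_eq_abs]
  refine norm_integral_le_of_norm_le ?_ ?_
  · exact (((maj hd n).const_mul K).mul_const _).mul_const _
  · refine (ae_restrict_iff' measurableSet_Ioi).2 (Eventually.of_forall fun t ht => ?_)
    have ht1 : (1 : ℝ) < t := ht
    have hl : 0 ≤ Real.log t := Real.log_nonneg ht1.le
    rw [norm_mul, Real.norm_eq_abs, Real.norm_eq_abs]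
    have h2 := EA_le hK hE ht1 (le_refl (0 : ℝ))
    have h3 := rr_abs n (mul_nonneg hx0.le hl)
    calc |EA a c t * t ^ (-(2 + (0 : ℝ)))| * |rr n (x * Real.log t)| ≤
        K * t ^ (-(1 + d)) * ((x * Real.log t) ^ n / n.factorial) :=
          mul_le_mul h2 h3 (abs_nonneg _) (by positivity)
      _ = _ := by rw [mul_pow]; ring

include hd hd2 hK hE in
theorem bigO : (fun n : ℕ ↦ ∑ k ∈ Icc 1 n, a k) =O[atTop] fun n ↦ (n : ℝ) ^ (1 : ℝ) := by
  refine Asymptotics.IsBigO.of_bound (|c| + K) ?_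
  filter_upwards [eventually_ge_atTop 1] with n hn
  have hn1 : (1 : ℝ) ≤ n := by exact_mod_cast hn
  have h1 := hE n hn1
  have h2 : EA a c n = ∑ k ∈ Icc 1 n, a k - c * n := by
    unfold EA SA; rw [Nat.floor_natCast]
  rw [h2] at h1
  have h3 : (n : ℝ) ^ (1 - d) ≤ n := by
    calc (n : ℝ) ^ (1 - d) ≤ (n : ℝ) ^ (1 : ℝ) :=
          Real.rpow_le_rpow_of_exponent_le hn1 (by linarith)
      _ = n := Real.rpow_one _
  rw [Real.rpow_one, Real.norm_eq_abs, Real.norm_eq_abs, abs_of_nonneg (by linarith : (0:ℝ) ≤ n)]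
  have h4 : |∑ k ∈ Icc 1 n, a k| ≤ |∑ k ∈ Icc 1 n, a k - c * n| + |c * n| := by
    have := abs_add_le (∑ k ∈ Icc 1 n, a k - c * n) (c * n)
    rwa [sub_add_cancel] at this
  rw [abs_mul, abs_of_nonneg (by linarith : (0:ℝ) ≤ n)] at h4
  have h5 := mul_le_mul_of_nonneg_left h3 hK
  linarith

include ha hd hd2 hK hE in
theorem AC_a : AC a := by
  intro x hx
  have h1 := LSeriesSummable_of_sum_norm_bigO_and_nonneg (f := a) (r := 1) (s := ((1 + x : ℝ) : ℂ))
    (bigO hd hd2 hK hE) ha zero_le_one (by simpa using hx)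
  have h2 := h1.norm
  refine h2.congr fun k => ?_
  rw [LSeries.norm_term_eq]
  by_cases hk : k = 0
  · simp [hk]
  · rw [if_neg hk, if_neg hk, Complex.norm_real, Real.norm_eq_abs, Complex.ofReal_re,
      Real.rpow_neg (Nat.cast_nonneg k), div_eq_mul_inv]

include ha hd hd2 hK hE in
theorem DS_eq {x : ℝ} (hx : 0 < x) :
    DS a x = (1 + x) * ∫ t in Set.Ioi (1 : ℝ), SA a t * t ^ (-(2 + x)) := by
  have h1 := LSeries_eq_mul_integral_of_nonneg a (r := 1) zero_le_one (s := ((1 + x : ℝ) : ℂ))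
    (by simpa using hx) (bigO hd hd2 hK hE) ha
  have h2 : LSeries (fun n ↦ (a n : ℂ)) ((1 + x : ℝ) : ℂ) = ((DS a x : ℝ) : ℂ) := by
    unfold LSeries DS
    rw [Complex.ofReal_tsum]
    refine tsum_congr fun k => ?_
    rw [LSeries.term_def]
    by_cases hk : k = 0
    · simp [hk]
    · rw [if_neg hk, if_neg hk, Complex.ofReal_mul, Complex.ofReal_cpow (Nat.cast_nonneg k),
        Complex.ofReal_neg, Complex.cpow_neg, Complex.ofReal_natCast, div_eq_mul_inv]
  have h3 : ∫ t in Set.Ioi (1 : ℝ), (∑ k ∈ Icc 1 ⌊t⌋₊, (a k : ℂ)) *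
      (t : ℂ) ^ (-(((1 + x : ℝ) : ℂ) + 1)) =
      ((∫ t in Set.Ioi (1 : ℝ), SA a t * t ^ (-(2 + x)) : ℝ) : ℂ) := by
    rw [← integral_complex_ofReal]
    refine setIntegral_congr_fun measurableSet_Ioi fun t ht => ?_
    have ht0 : (0 : ℝ) ≤ t := by
      have : (1 : ℝ) < t := ht
      linarith
    rw [Complex.ofReal_mul, Complex.ofReal_cpow ht0]
    unfold SA
    rw [Complex.ofReal_sum]
    congr 2
    push_cast; ring
  rw [h2, h3] at h1
  have h4 : ((DS a x : ℝ) : ℂ) =
      (((1 + x) * ∫ t in Set.Ioi (1 : ℝ), SA a t * t ^ (-(2 + x)) : ℝ) : ℂ) := by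
    rw [h1, Complex.ofReal_mul]
  exact_mod_cast h4

include ha hd hd2 hK hE in
theorem DS_eq2 {x : ℝ} (hx : 0 < x) : DS a x = (1 + x) * (c + x * IE a c x) / x := by
  rw [DS_eq ha hd hd2 hK hE hx]
  have h1 : ∫ t in Set.Ioi (1 : ℝ), SA a t * t ^ (-(2 + x)) = c * (1 / x) + IE a c x := by
    unfold IE
    have h2 : ∫ t in Set.Ioi (1 : ℝ), t ^ (-(1 + x)) = 1 / x := by
      rw [integral_Ioi_rpow_of_lt (by linarith) one_pos, Real.one_rpow]
      have : -(1 + x) + 1 = -x := by ring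
      rw [this, neg_div_neg_eq]
    rw [← h2, ← integral_const_mul, ← integral_add]
    · refine setIntegral_congr_fun measurableSet_Ioi fun t ht => ?_
      have ht0 : (0 : ℝ) < t := by
        have : (1 : ℝ) < t := ht
        linarith
      have e : t ^ (-(1 + x)) = t * t ^ (-(2 + x)) := by
        nth_rewrite 2 [← Real.rpow_one t]
        rw [← Real.rpow_add ht0]
        congr 1; ring
      rw [e]
      unfold EA
      ring
    · exact (integrableOn_Ioi_rpow_of_lt (by linarith) one_pos).const_mul c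
    · have := EA_int hd hK hE hx.le 0
      simp only [pow_zero, mul_one] at this
      exact this
  rw [h1]
  field_simp

end

theorem t_HYP : EEA → S_HYP := by
  intro A a c δ C ha hδ h
  obtain ⟨d, hd⟩ : ∃ d, d = min δ (1 / 2) := ⟨_, rfl⟩
  have hd0 : 0 < d := by rw [hd]; exact lt_min hδ (by norm_num)
  have hd2 : d ≤ 1 / 2 := by rw [hd]; exact min_le_right _ _
  have hdδ : d ≤ δ := by rw [hd]; exact min_le_left _ _
  have hC : 0 ≤ C := by
    have h1 := (abs_nonneg _).trans (h 2 le_rfl)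
    have h2 : (0 : ℝ) < 2 ^ (1 - δ) := by positivity
    exact nonneg_of_mul_nonneg_left h1 h2
  have hK : 0 ≤ |c| + 2 * C := by positivity
  have hE : ∀ t : ℝ, 1 ≤ t → |EA a c t| ≤ (|c| + 2 * C) * t ^ (1 - d) := by
    intro t ht
    have ht0 : 0 ≤ t := by linarith
    have hf1 := Nat.floor_le ht0
    have hf2 := Nat.lt_floor_add_one t
    have hf3 : 1 ≤ ⌊t⌋₊ := Nat.one_le_floor_iff t |>.2 ht
    have hX : (2 : ℝ) ≤ ((⌊t⌋₊ + 1 : ℕ) : ℝ) := by exact_mod_cast (by omega : 2 ≤ ⌊t⌋₊ + 1)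
    have h1 := h _ hX
    rw [Nat.ceil_natCast] at h1
    have e1 : Ico 1 (⌊t⌋₊ + 1) = Icc 1 ⌊t⌋₊ := by
      ext k; simp only [mem_Ico, mem_Icc]; omega
    rw [e1] at h1
    set X : ℝ := ((⌊t⌋₊ + 1 : ℕ) : ℝ) with hXd
    have hXt : X ≤ t + 1 := by rw [hXd]; push_cast; linarith
    have htX : t < X := by rw [hXd]; push_cast; linarith
    have e2 : EA a c t = (∑ k ∈ Icc 1 ⌊t⌋₊, a k - c * X) + c * (X - t) := by
      unfold EA SA; ring
    have h2 : |c * (X - t)| ≤ |c| := by
      rw [abs_mul, abs_of_pos (by linarith : 0 < X - t)]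
      exact mul_le_of_le_one_right (abs_nonneg _) (by linarith)
    have h3 : X ^ (1 - δ) ≤ 2 * t ^ (1 - d) := by
      calc X ^ (1 - δ) ≤ X ^ (1 - d) :=
            Real.rpow_le_rpow_of_exponent_le (by linarith) (by linarith)
        _ ≤ (2 * t) ^ (1 - d) := Real.rpow_le_rpow (by linarith) (by linarith) (by linarith)
        _ = 2 ^ (1 - d) * t ^ (1 - d) := Real.mul_rpow (by norm_num) ht0
        _ ≤ 2 * t ^ (1 - d) := by
            refine mul_le_mul_of_nonneg_right ?_ (by positivity)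
            calc (2 : ℝ) ^ (1 - d) ≤ 2 ^ (1 : ℝ) :=
                  Real.rpow_le_rpow_of_exponent_le (by norm_num) (by linarith)
              _ = 2 := Real.rpow_one _
    have h4 : (1 : ℝ) ≤ t ^ (1 - d) := Real.one_le_rpow ht (by linarith)
    have h5 := abs_add_le (∑ k ∈ Icc 1 ⌊t⌋₊, a k - c * X) (c * (X - t))
    rw [← e2] at h5
    have h6 := mul_le_mul_of_nonneg_left h3 hC
    have h7 := mul_le_mul_of_nonneg_left h4 (abs_nonneg c)
    calc |EA a c t| ≤ C * X ^ (1 - δ) + |c| := by linarith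
      _ ≤ C * (2 * t ^ (1 - d)) + |c| * t ^ (1 - d) := by linarith
      _ = _ := by ring
  refine ⟨AC_a ha hd0 hd2 hK hE, fun x => (1 + x) * (c + x * IE a c x), ?_, ?_⟩
  · exact A.mul _ _ (A.add _ _ (A.const 1) A.id)
      (A.add _ _ (A.const c) (A.mul _ _ A.id (EE_IE hd0 hK hE)))
  · intro x hx0 _
    exact DS_eq2 ha hd0 hd2 hK hE hx0

end

end Pool.Agent.Y26.FK
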